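import Pool.Agent.Q142.Coh.Top

set_option autoImplicit false

open scoped ContDiff Manifold Topology Quaternion
open Module Metric Pool.Agent.Q142.Coh

namespace Pool.Agent.Results.MP_d84343_gt.QuaternionSpheres

theorem sameType_sub {k : ℕ} (x : MQ k) (hx : ¬ Reg x) : sameType GQ x ⊆ {y | ¬ Reg y} := by
  rintro y ⟨a, ha⟩ hy
  rw [stab_reg y hy] at ha
  exact stab_sing (a • x) (fun h2 => hx ((reg_smul a x).1 h2)) ha.symm

theorem sameType_reg {k : ℕ} (x : MQ k) (hx : Reg x) : sameType GQ x = {y | Reg y} := by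
  ext y
  constructor
  · rintro ⟨a, ha⟩
    by_contra hy
    rw [stab_reg (a • x) ((reg_smul a x).2 hx)] at ha
    exact stab_sing y hy ha
  · intro hy
    refine ⟨1, ?_⟩
    rw [stab_reg y hy, stab_reg _ ((reg_smul 1 x).2 hx)]

theorem principal_iff {k : ℕ} (hk : 1 ≤ k) (x : MQ k) :
    Pool.Agent.Q142.Coh.IsPrincipal GQ x ↔ Reg x := by
  constructor
  · intro h
    by_contra hx
    obtain ⟨z, hz1, hz2⟩ := h.2.inter_open_nonempty _ (isOpen_reg k)
      (by
        obtain ⟨z, hz⟩ := (dense_reg hk).nonempty (h := ⟨x⟩)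
        exact ⟨z, hz⟩)
    exact sameType_sub x hx hz2 hz1
  · intro hx
    unfold Pool.Agent.Q142.Coh.IsPrincipal
    rw [sameType_reg x hx]
    exact ⟨isOpen_reg k, dense_reg hk⟩

/-- the point `(0, ..., 0, 1)` -/
noncomputable def lastM (k : ℕ) (hk : 1 ≤ k) : MQ k :=
  ⟨lastV k hk, by rw [mem_sphere_zero_iff_norm]; exact norm_lastV k hk⟩

theorem reg_lastM (k : ℕ) (hk : 1 ≤ k) : Reg (lastM k hk) := by
  refine ⟨Fin.last k, last_ne_zero k hk, ?_⟩
  change (Pi.single (Fin.last k) (1 : ℍ) : Fin (k + 1) → ℍ) (Fin.last k) ≠ 0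
  simp

/-- a point of the singular orbit -/
noncomputable def firstM (k : ℕ) : MQ k :=
  ⟨⟨WithLp.toLp 2 (Pi.single 0 qI), by
    rw [mem_VQ]
    simp
    rfl⟩, by
    rw [mem_sphere_zero_iff_norm]
    change ‖(WithLp.toLp 2 (Pi.single 0 qI) : EQ k)‖ = 1
    rw [PiLp.norm_eq_of_L2, Finset.sum_eq_single 0]
    · simp [norm_qI]
    · intro i _ hi
      simp [hi]
    · simp⟩

theorem not_reg_firstM (k : ℕ) : ¬ Reg (firstM k) := by
  rintro ⟨i, hi, h⟩
  apply h
  change (Pi.single 0 qI : Fin (k + 1) → ℍ) i = 0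
  simp [hi]

theorem singular_iff {k : ℕ} (hk : 1 ≤ k) (x : MQ k) :
    IsSingular 3 (4 * k + 2) GQ x ↔ ¬ Reg x := by
  constructor
  · rintro ⟨p, hp, h⟩ hx
    rw [orbitDim_reg x hx, orbitDim_reg p ((principal_iff hk p).1 hp)] at h
    exact lt_irrefl _ h
  · intro hx
    refine ⟨lastM k hk, (principal_iff hk _).2 (reg_lastM k hk), ?_⟩
    rw [orbitDim_reg _ (reg_lastM k hk)]
    exact orbitDim_sing x hx

theorem orbit_not_reg {k : ℕ} (x y : MQ k) (hx : ¬ Reg x) (h : y ∈ MulAction.orbit GQ x) :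
    ¬ Reg y := by
  obtain ⟨a, rfl⟩ := h
  exact fun h2 => hx ((reg_smul a x).1 h2)

theorem connected (k : ℕ) : ConnectedSpace (MQ k) := by
  refine isConnected_iff_connectedSpace.1 (isConnected_sphere ?_ (0 : VQ k) zero_le_one)
  rw [← finrank_eq_rank, finrank_VQ]
  exact_mod_cast (by omega : 1 < 4 * k + 3)

theorem single (k : ℕ) (hk : 1 ≤ k) :
    SingleSingular 3 (4 * k + 2) (4 * k - 1) GQ (MQ k) := by
  refine ⟨⟨inferInstance, inferInstance, inferInstance⟩,
    ⟨inferInstance, inferInstance, connected k, inferInstance⟩, smooth_action k,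
    ⟨firstM k, fun x => ?_⟩, ?_, ⟨lastM k hk, (principal_iff hk _).2 (reg_lastM k hk), ?_⟩⟩
  · rw [singular_iff hk]
    exact ⟨fun h => sing_orbit _ _ (not_reg_firstM k) h,
      fun h => orbit_not_reg _ _ (not_reg_firstM k) h⟩
  · refine Set.Finite.subset (Set.finite_singleton (MulAction.orbit GQ (firstM k))) ?_
    rintro O ⟨x, hx, rfl⟩
    rw [principal_iff hk] at hx
    rw [Set.mem_singleton_iff, MulAction.orbit_eq_iff]
    exact sing_orbit _ _ (not_reg_firstM k) hx
  · rw [orbitDim_reg _ (reg_lastM k hk)]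
    omega

theorem invariant_round (k : ℕ) : Invariant GQ (roundMet (VQ k) (4 * k + 2)) := by
  intro a x v w
  have h1 := dinc_comp (n := 4 * k + 2) (f := fun z : MQ k => a • z)
    (F := (actV k a).toContinuousLinearMap) (fun z => rfl) x (mdiff_smul a x)
  have h2 := h1 v
  have h3 := h1 w
  change inner ℝ
    (dinc (a • x) (mfderiv (𝓡 (4 * k + 2)) (𝓡 (4 * k + 2)) (fun z : MQ k => a • z) x v))
    (dinc (a • x) (mfderiv (𝓡 (4 * k + 2)) (𝓡 (4 * k + 2)) (fun z : MQ k => a • z) x w)) =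
    inner ℝ (dinc x v) (dinc x w)
  rw [h2, h3]
  exact (actV k a).inner_map_map _ _

/-- For every `k ≥ 1` there are a compact Lie group `G` of dimension `3` and a closed connected
`G`-manifold `M` of dimension `4k + 2` with a single singular orbit, of cohomogeneity `4k - 1`,
which admits a `G`-invariant Riemannian metric of positive Ricci curvature. For `k ≥ 2` the
cohomogeneity is greater than three. -/
theorem result : ∀ k : ℕ, 1 ≤ k →
    ∃ (G M : Type) (_ : Group G) (_ : TopologicalSpace G) (_ : ChartedSpace (En 3) G)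
      (_ : TopologicalSpace M) (_ : ChartedSpace (En (4 * k + 2)) M) (_ : MulAction G M),
      SingleSingular 3 (4 * k + 2) (4 * k - 1) G M ∧
      ∃ g : RMet (4 * k + 2) M, Invariant G g ∧ PosRicci g := by
  intro k hk
  exact ⟨GQ, MQ k, inferInstance, inferInstance, inferInstance, inferInstance, inferInstance,
    actionQ k, single k hk, roundMet (VQ k) (4 * k + 2), invariant_round k,
    posRicci_round (by omega)⟩

end Pool.Agent.Results.MP_d84343_gt.QuaternionSpheres
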